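import Pool.Agent.Helper61.HilbPow6
import Pool.Agent.Helper61.HilbAsym
import Pool.Agent.Helper61.HilbAdd

/-!
# `MP_9d305a_ag`: the largest tangent space of the smoothable component

All definitions (`Hilb`, its Zariski topology, `reduced`, `smoothable`, `IsCoord`, `eqns`,
`tangent`, `HasTangentDim`) are in `Pool.Agent.Helper61.HilbDef`; `idealOfVars (Fin n) k` is the
ideal `𝔪 = (x_1, …, x_n)` of `k[x_1, …, x_n]`.
-/

open MvPolynomial Module TopologicalSpace Filter Topology Pool.Agent.Hilb61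

namespace Pool.Agent.Results.MP_9d305a_ag.ExactMaximum

theorem exists_max {P : ℕ → Prop} {b : ℕ} (h1 : ∃ N, P N) (h2 : ∀ N, P N → N ≤ b) :
    ∃ t, IsGreatest {N | P N} t := by
  classical
  obtain ⟨N, hN⟩ := h1
  let s := (Finset.range (b + 1)).filter P
  have hs : N ∈ s := by
    rw [Finset.mem_filter, Finset.mem_range]
    exact ⟨Nat.lt_succ_of_le (h2 N hN), hN⟩
  obtain ⟨t, ht1, ht2⟩ := s.exists_max_image id ⟨N, hs⟩
  rw [Finset.mem_filter, Finset.mem_range] at ht1
  refine ⟨t, ⟨ht1.2, fun M hM => ?_⟩⟩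
  apply ht2 M
  rw [Finset.mem_filter, Finset.mem_range]
  exact ⟨Nat.lt_succ_of_le (h2 M hM), hM⟩

/-- Let `k` be an algebraically closed field (of any characteristic) and `n ≥ 3`. Let
`t d = t(d,n)` be the maximum of the dimensions of the Zariski tangent spaces of `H_{d,n}`.

* For `r ≥ 1` and `d = C(n+r-1,n)`: `t d = C(n+r-1,r)·C(n+r-2,r-1)`; the maximum is attained at the
  point `x₀ = 𝔪^r`, and `x₀` lies on every irreducible component of `Hilb^d(𝔸^n)` which contains
  a subscheme lying on no hypersurface of degree `< r`.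
* For `r ≥ 1` and `d = C(n+r-1,n) + m` with `0 ≤ m ≤ C(n+r-1,n-1)` (every `d ≥ 1` has this form):
  `t d` is between `C(n+r-1,r)·C(n+r-2,r-1) + n·m` and
  `C(n+r-1,r)·C(n+r-2,r-1) + (C(n+r-1,n-2) + C(n+r-2,n-2))·m`.
* `t d + n ≤ t (d+1)` for all `d ≥ 1`.
* `t d / d^(2-2/n)` tends to `n² / (n!)^(2/n)` as `d` tends to infinity. -/
theorem result (k : Type*) [Field k] [IsAlgClosed k] (n : ℕ) (hn : 3 ≤ n) :
    ∃ t : ℕ → ℕ,
      (∀ d, 1 ≤ d → IsGreatest {N : ℕ | ∃ x ∈ smoothable k n d, HasTangentDim x N} (t d)) ∧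
      (∀ r, 1 ≤ r →
        t ((n + r - 1).choose n) = (n + r - 1).choose r * (n + r - 2).choose (r - 1) ∧
        ∃ x₀ ∈ smoothable k n ((n + r - 1).choose n), x₀.1 = idealOfVars (Fin n) k ^ r ∧
          HasTangentDim x₀ ((n + r - 1).choose r * (n + r - 2).choose (r - 1)) ∧
          ∀ Z ∈ irreducibleComponents (Hilb k n ((n + r - 1).choose n)),
            (∃ x ∈ Z, ∀ f ∈ x.1, f ≠ 0 → r ≤ f.totalDegree) → x₀ ∈ Z) ∧
      (∀ r m, 1 ≤ r → m ≤ (n + r - 1).choose (n - 1) →
        (n + r - 1).choose r * (n + r - 2).choose (r - 1) + n * m ≤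
          t ((n + r - 1).choose n + m) ∧
        t ((n + r - 1).choose n + m) ≤ (n + r - 1).choose r * (n + r - 2).choose (r - 1) +
          ((n + r - 1).choose (n - 2) + (n + r - 2).choose (n - 2)) * m) ∧
      (∀ d, 1 ≤ d → t d + n ≤ t (d + 1)) ∧
      Tendsto (fun d : ℕ => (t d : ℝ) / (d : ℝ) ^ ((2 : ℝ) - 2 / n)) atTop
        (𝓝 ((n : ℝ) ^ 2 / ((n.factorial : ℝ)) ^ ((2 : ℝ) / n))) := by
  have hinf : Infinite k := IsAlgClosed.instInfinite
  have i0 : Fin n := ⟨0, by omega⟩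
  have hD : ∀ r, 1 ≤ r → Dn n r = (n + r - 1).choose n := by
    intro r hr
    rw [Dn]
    congr 1
    omega
  have e3 : ∀ r, 1 ≤ r → (n + r - 1).choose (n - 1) = (n + r - 1).choose r := by
    intro r hr
    rw [← Nat.choose_symm_of_eq_add (show n + r - 1 = (n - 1) + r by omega)]
  have e4 : ∀ r, 1 ≤ r → (n + r - 2).choose (n - 1) = (n + r - 2).choose (r - 1) := by
    intro r hr
    rw [← Nat.choose_symm_of_eq_add (show n + r - 2 = (n - 1) + (r - 1) by omega)]
  have hup : ∀ (d : ℕ), 1 ≤ d → ∀ N, (∃ x ∈ smoothable k n d, HasTangentDim x N) → N ≤ TB n d := by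
    rintro d hd N ⟨x, hx, lam, c, hc, rfl⟩
    exact finrank_tangent_le_TB hn hd hc
  -- the point `𝔪^r`
  have hpt : ∀ r, 1 ≤ r → ∃ x₀ ∈ smoothable k n ((n + r - 1).choose n),
      x₀.1 = idealOfVars (Fin n) k ^ r ∧
      HasTangentDim x₀ ((n + r - 1).choose r * (n + r - 2).choose (r - 1)) ∧
      ∀ Z ∈ irreducibleComponents (Hilb k n ((n + r - 1).choose n)),
        (∃ x ∈ Z, ∀ f ∈ x.1, f ≠ 0 → r ≤ f.totalDegree) → x₀ ∈ Z := by
    intro r hr
    obtain ⟨mon, hm⟩ := exists_enum n r hr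
    have e1 : n.multichoose r = (n + r - 1).choose r := Nat.multichoose_eq n r
    have e2 : n.multichoose (r - 1) = (n + r - 2).choose (r - 1) := by
      rw [Nat.multichoose_eq]
      congr 1
      omega
    have hfin : finrank k (tangent (lamD k mon) (c00 k mon)) =
        (n + r - 1).choose r * (n + r - 2).choose (r - 1) := by
      rw [← e1, ← e2]
      exact le_antisymm (finrank_pow_le hm hr (by omega)) (le_finrank_pow hm hr i0)
    refine ⟨_, xpow_smoothable (k := k) hm hr i0, rfl,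
      ⟨lamD k mon, c00 k mon, isCoord_pow hm hr, hfin⟩, ?_⟩
    rintro Z hZ ⟨x, hxZ, hd⟩
    obtain ⟨c, hc⟩ := exists_chart_mon hm x hd
    exact xpow_mem_component hm hr hZ hxZ hc
  have hex : ∀ r m, 1 ≤ r → ∃ N, (∃ x ∈ smoothable k n ((n + r - 1).choose n + m),
      HasTangentDim x N) ∧ (n + r - 1).choose r * (n + r - 2).choose (r - 1) + n * m ≤ N := by
    intro r m hr
    obtain ⟨x₀, hs₀, -, hx₀, -⟩ := hpt r hr
    obtain ⟨x', hx', N', hN', hle⟩ := exists_add_points i0 hs₀ hx₀ m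
    exact ⟨N', ⟨x', hx', hN'⟩, hle⟩
  have hform : ∀ d, 1 ≤ d → ∃ r m, 1 ≤ r ∧ d = (n + r - 1).choose n + m := by
    intro d hd
    refine ⟨1, d - 1, le_rfl, ?_⟩
    rw [Nat.add_sub_cancel, Nat.choose_self]
    omega
  have ht : ∀ d, ∃ t, 1 ≤ d → IsGreatest {N : ℕ | ∃ x ∈ smoothable k n d, HasTangentDim x N} t := by
    intro d
    rcases Nat.lt_or_ge d 1 with hd | hd
    · exact ⟨0, fun h => absurd h (by omega)⟩
    · obtain ⟨r, m, hr, rfl⟩ := hform d hd
      obtain ⟨N, hN, -⟩ := hex r m hr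
      obtain ⟨t, ht⟩ := exists_max ⟨N, hN⟩ (hup _ hd)
      exact ⟨t, fun _ => ht⟩
  choose t ht using ht
  have hTB : ∀ r, 1 ≤ r → TB n ((n + r - 1).choose n) =
      (n + r - 1).choose r * (n + r - 2).choose (r - 1) := by
    intro r hr
    rw [← hD r hr, TB_Dn hn, e3 r hr, e4 r hr]
  have hpos : ∀ r, 1 ≤ r → 1 ≤ (n + r - 1).choose n := fun r hr => Nat.choose_pos (by omega)
  have hbd : ∀ r m, 1 ≤ r → m ≤ (n + r - 1).choose (n - 1) →
      (n + r - 1).choose r * (n + r - 2).choose (r - 1) + n * m ≤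
        t ((n + r - 1).choose n + m) ∧
      t ((n + r - 1).choose n + m) ≤ (n + r - 1).choose r * (n + r - 2).choose (r - 1) +
        ((n + r - 1).choose (n - 2) + (n + r - 2).choose (n - 2)) * m := by
    intro r m hr hm
    have h0 := hpos r hr
    have h1 := ht ((n + r - 1).choose n + m) (by omega)
    constructor
    · obtain ⟨N, hN, hle⟩ := hex r m hr
      exact hle.trans (h1.2 hN)
    · have h2 := hup _ (by omega) _ h1.1
      rw [← hD r hr, TB_add_of_level hn r m (by rw [show n - 1 + r = n + r - 1 by omega]; exact hm),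
        hD r hr, hTB r hr] at h2
      rw [mul_comm _ m]
      exact h2
  refine ⟨t, ht, ?_, hbd, ?_, ?_⟩
  · intro r hr
    refine ⟨?_, hpt r hr⟩
    have h1 := hbd r 0 hr (Nat.zero_le _)
    rw [mul_zero, mul_zero, add_zero, add_zero] at h1
    exact le_antisymm h1.2 h1.1
  · intro d hd
    obtain ⟨x, hx, hN⟩ := (ht d hd).1
    obtain ⟨x', hx', N', hN', hle⟩ := exists_add_point i0 hx hN
    exact hle.trans ((ht (d + 1) (by omega)).2 ⟨x', hx', hN'⟩)
  · apply tendsto_of_bounds (by omega)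
    intro r d hr h1 h2
    have h3 : ∀ r, 1 ≤ r → Tr n r = (n + r - 1).choose r * (n + r - 2).choose (r - 1) := by
      intro r hr
      rw [Tr, e3 r hr, e4 r hr]
    obtain ⟨m, rfl⟩ : ∃ m, d = Dn n r + m := ⟨d - Dn n r, by omega⟩
    have h4 := Dn_succ (show 1 ≤ n by omega) r
    rw [show n - 1 + r = n + r - 1 by omega] at h4
    have h5 := hbd r m hr (by omega)
    rw [← hD r hr] at h5
    refine ⟨by rw [h3 r hr]; omega, h5.2.trans ?_⟩
    have h6 := TB_add_of_level hn r ((n + r - 1).choose (n - 1))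
      (by rw [show n - 1 + r = n + r - 1 by omega])
    rw [← h4, hD (r + 1) (by omega), hTB (r + 1) (by omega), hD r hr, hTB r hr] at h6
    rw [h3 (r + 1) (by omega), h6]
    have h7 : m ≤ (n + r - 1).choose (n - 1) := by omega
    rw [mul_comm _ m]
    exact Nat.add_le_add_left (Nat.mul_le_mul_right _ h7) _

end Pool.Agent.Results.MP_9d305a_ag.ExactMaximum
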