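import Pool.Agent.Helper61.HilbComp

/-!
# `MP_9d305a_ag`: the maximal tangent space dimension `t(d,n)` of the smoothable component for
# `n ≥ d - 1`, and Question 2 in this range

All definitions (`Hilb`, its Zariski topology, `reduced`, `smoothable`, `IsCoord`, `eqns`,
`tangent`, `HasTangentDim`) are in `Pool.Agent.Helper61.HilbDef`; `fatIdeal k n m` is the ideal
`(x_1, …, x_m)² + (x_{m+1}, …, x_n)` of `k[x_1, …, x_n]`.
-/

open MvPolynomial Module TopologicalSpace Pool.Agent.Hilb61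

namespace Pool.Agent.Results.MP_9d305a_ag.MaxTangentLargeN

/-- Let `k` be an algebraically closed field (of any characteristic), `d ≥ 3` and `n ≥ d - 1`.
Then `t(d,n) = (d-1)·C(d,2) + (n-d+1)·d`: this is the greatest dimension of a Zariski tangent
space of the smoothable component `H_{d,n}` of `Hilb^d(𝔸^n)`. Moreover this maximum is attained at
the point `x₀` of `H_{d,n}` with ideal `(x_1,…,x_{d-1})² + (x_d,…,x_n)`, and `x₀` lies on every
irreducible component of `Hilb^d(𝔸^n)`. -/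
theorem result (k : Type*) [Field k] [IsAlgClosed k] (n d : ℕ) (hd : 3 ≤ d) (hn : d - 1 ≤ n) :
    IsGreatest {N : ℕ | ∃ x ∈ smoothable k n d, HasTangentDim x N}
      ((d - 1) * d.choose 2 + (n - (d - 1)) * d) ∧
    ∃ x₀ ∈ smoothable k n d, x₀.1 = fatIdeal k n (d - 1) ∧
      HasTangentDim x₀ ((d - 1) * d.choose 2 + (n - (d - 1)) * d) ∧
      ∀ Z ∈ irreducibleComponents (Hilb k n d), x₀ ∈ Z := by
  obtain ⟨m, rfl⟩ : ∃ m, d = m + 1 := ⟨d - 1, by omega⟩
  simp only [Nat.add_sub_cancel] at hn ⊢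
  have hm : 2 ≤ m := by omega
  have hinf : Infinite k := IsAlgClosed.instInfinite
  have hup : ∀ {lam : Fin (m + 1) → MvPolynomial (Fin n) k}
      {I : Ideal (MvPolynomial (Fin n) k)} {c : Coord n (m + 1) → k}, IsCoord lam I c →
      finrank k (tangent lam c) ≤ m * (m + 1).choose 2 + (n - m) * (m + 1) := by
    intro lam I c h
    have h1 := finrank_tangent_bound hm h
    obtain ⟨q, rfl⟩ : ∃ q, n = m + q := ⟨n - m, by omega⟩
    rw [Nat.add_sub_cancel_left]
    have h2 : (m + q) * (m + 1) = m * (m + 1) + q * (m + 1) := by ring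
    rw [h2] at h1
    omega
  have hx : HasTangentDim (x0 k hn) (m * (m + 1).choose 2 + (n - m) * (m + 1)) := by
    refine ⟨lam0 k hn, a0 k n m, x0_isCoord hn, le_antisymm ?_ (le_finrank_tangent hn)⟩
    exact hup (x0_isCoord hn)
  refine ⟨⟨⟨x0 k hn, x0_mem_smoothable hn, hx⟩, ?_⟩,
    x0 k hn, x0_mem_smoothable hn, x0_ideal hn, hx, fun Z hZ => x0_mem_component hn hZ⟩
  rintro N ⟨x, -, lam, c, h, rfl⟩
  exact hup h

end Pool.Agent.Results.MP_9d305a_ag.MaxTangentLargeN
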