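import Pool.Agent.Helper87.TE.Main

/-!
# `MP_9d305a_ag`: exact values of `t(d,n)` just above the simplex numbers

All definitions (`Hilb`, its Zariski topology, `reduced`, `smoothable`, `IsCoord`, `eqns`,
`tangent`, `HasTangentDim`) are in `Pool.Agent.Helper61.HilbDef`.
-/

open MvPolynomial Module Pool.Agent.Hilb61 Pool.Agent.Helper87.TE

namespace Pool.Agent.Results.MP_9d305a_ag.NearSimplexNumbers

/-- `e` is small compared with `r`: `(n-1)(2r+n)e ≤ r(r+1)`; for `n = 3` also `e ≤ r` and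
`2(r-2)e ≤ r(r+1)` is enough. -/
def Rng (n r e : ℕ) : Prop :=
  (n - 1) * (2 * r + n) * e ≤ r * (r + 1) ∨ (n = 3 ∧ e ≤ r ∧ 2 * r * e ≤ r * (r + 1) + 4 * e)

/-- The numbers `e ≤ n + 1` and, recursively, the numbers `C(n+r-1,n) + e` with `e` in the set and
`e` small compared with `r`. -/
inductive Sp (n : ℕ) : ℕ → Prop
  | small (e : ℕ) (h : e ≤ n + 1) : Sp n e
  | step (r e : ℕ) (hr : 1 ≤ r) (h : Rng n r e) (he : Sp n e) :
      Sp n ((n + r - 1).choose n + e)

theorem exists_max {P : ℕ → Prop} {b : ℕ} (h1 : ∃ N, P N) (h2 : ∀ N, P N → N ≤ b) :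
    ∃ t, IsGreatest {N | P N} t := by
  classical
  obtain ⟨N, hN⟩ := h1
  let s := (Finset.range (b + 1)).filter P
  have hs : N ∈ s := by
    rw [Finset.mem_filter, Finset.mem_range]
    exact ⟨Nat.lt_succ_of_le (h2 N hN), hN⟩
  obtain ⟨t, ht1, ht2⟩ := s.exists_max_image id ⟨N, hs⟩
  rw [Finset.mem_filter, Finset.mem_range] at ht1
  refine ⟨t, ⟨ht1.2, fun M hM => ?_⟩⟩
  apply ht2 M
  rw [Finset.mem_filter, Finset.mem_range]
  exact ⟨Nat.lt_succ_of_le (h2 M hM), hM⟩

/-- Let `k` be an algebraically closed field (of any characteristic) and `n ≥ 3`. Let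
`t d = t(d,n)` be the maximum of the dimensions of the Zariski tangent spaces of `H_{d,n}`
(`t 0 = 0`), and `D_r = C(n+r-1,n)`, `T_r = C(n+r-1,r)·C(n+r-2,r-1)` (which is `t(D_r,n)`).

* `t d + t e ≤ t (d + e)`.
* `t e = n e + e(e-1)(e-3)/2` for `3 ≤ e ≤ n + 1` and `t e = n e` for `e ≤ 3`.
* `t (D_r + e) = T_r + t e` for all `r ≥ 1` and `e` with `Rng n r e`, `Sp n e`.
* For all `e = D_s + m`, `0 ≤ m ≤ C(n+s-1,n-1)` with `Rng n r e`:
  `t (D_r + e) ≤ T_r + T_s + (C(n+s-1,n-2) + C(n+s-2,n-2)) m`. -/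
theorem result (k : Type*) [Field k] [IsAlgClosed k] (n : ℕ) (hn : 3 ≤ n) :
    ∃ t : ℕ → ℕ, t 0 = 0 ∧
      (∀ d, 1 ≤ d → IsGreatest {N : ℕ | ∃ x ∈ smoothable k n d, HasTangentDim x N} (t d)) ∧
      (∀ d e, t d + t e ≤ t (d + e)) ∧
      (∀ e, e ≤ n + 1 → t e = n * e + e * (e - 1) * (e - 3) / 2) ∧
      (∀ r e, 1 ≤ r → Rng n r e → Sp n e →
        t ((n + r - 1).choose n + e) =
          (n + r - 1).choose r * (n + r - 2).choose (r - 1) + t e) ∧
      (∀ r s m, 1 ≤ r → 1 ≤ s → m ≤ (n + s - 1).choose (n - 1) →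
        Rng n r ((n + s - 1).choose n + m) →
        t ((n + r - 1).choose n + ((n + s - 1).choose n + m)) ≤
          (n + r - 1).choose r * (n + r - 2).choose (r - 1) +
            ((n + s - 1).choose s * (n + s - 2).choose (s - 1) +
              ((n + s - 1).choose (n - 2) + (n + s - 2).choose (n - 2)) * m)) := by
  have hinf : Infinite k := IsAlgClosed.instInfinite
  have i0 : Fin n := ⟨0, by omega⟩
  have hD : ∀ r, 1 ≤ r → Dn n r = (n + r - 1).choose n := by
    intro r hr
    rw [Dn]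
    congr 1
    omega
  have hT : ∀ r, 1 ≤ r → n.multichoose r * n.multichoose (r - 1) =
      (n + r - 1).choose r * (n + r - 2).choose (r - 1) := by
    intro r hr
    rw [Nat.multichoose_eq, Nat.multichoose_eq, show n + (r - 1) - 1 = n + r - 2 by omega]
  have hup : ∀ (d : ℕ), 1 ≤ d → ∀ V, Tt n d V → ∀ N,
      (∃ x ∈ smoothable k n d, HasTangentDim x N) → N ≤ V := by
    rintro d hd V hV N ⟨x, hx, lam, c, hc, rfl⟩
    exact tangent_le_of_Tt hd hV hc
  -- existence
  have hone : ∃ x ∈ smoothable k n 1, HasTangentDim x n := by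
    have h := exists_pow_pt (k := k) (n := n) (r := 1) (by omega) le_rfl
    have h1 : Dn n 1 = 1 := by rw [hD 1 le_rfl, Nat.add_sub_cancel, Nat.choose_self]
    rw [h1] at h
    have h2 : n.multichoose 1 * n.multichoose (1 - 1) = n := by
      rw [Nat.multichoose_one_right, Nat.multichoose_zero_right, mul_one]
    rw [h2] at h
    exact h
  have hex : ∀ d, 1 ≤ d → ∃ N, ∃ x ∈ smoothable k n d, HasTangentDim x N := by
    intro d hd
    obtain ⟨x, hx, hN⟩ := hone
    obtain ⟨m, rfl⟩ : ∃ m, d = 1 + m := ⟨d - 1, by omega⟩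
    obtain ⟨x', hx', N', hN', -⟩ := exists_add_points i0 hx hN m
    exact ⟨N', x', hx', hN'⟩
  have ht : ∀ d, ∃ t, (d = 0 → t = 0) ∧
      (1 ≤ d → IsGreatest {N : ℕ | ∃ x ∈ smoothable k n d, HasTangentDim x N} t) := by
    intro d
    rcases Nat.eq_zero_or_pos d with hd | hd
    · exact ⟨0, fun _ => rfl, fun h => absurd h (by omega)⟩
    · obtain ⟨t, ht⟩ := exists_max (hex d hd) (hup d hd _ (Tt_TB hn hd))
      exact ⟨t, fun h => absurd h (by omega), fun _ => ht⟩
  choose t ht0 ht using ht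
  have hle : ∀ d, 1 ≤ d → ∀ V, Tt n d V → t d ≤ V := fun d hd V hV => hup d hd V hV _ (ht d hd).1
  have hge : ∀ d N, 1 ≤ d → (∃ x ∈ smoothable k n d, HasTangentDim x N) → N ≤ t d :=
    fun d N hd h => (ht d hd).2 h
  -- superadditivity
  have hadd : ∀ d e, t d + t e ≤ t (d + e) := by
    intro d e
    rcases Nat.eq_zero_or_pos d with hd | hd
    · subst hd
      rw [ht0 0 rfl, zero_add, zero_add]
    · rcases Nat.eq_zero_or_pos e with he | he
      · subst he
        rw [ht0 0 rfl, add_zero, add_zero]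
      · obtain ⟨x1, hx1, hN1⟩ := (ht d hd).1
        obtain ⟨x2, hx2, hN2⟩ := (ht e he).1
        obtain ⟨x', hx', N', hN', hle'⟩ := exists_add_scheme i0 hx1 hN1 hx2 hN2
        exact hle'.trans (hge (d + e) N' (by omega) ⟨x', hx', hN'⟩)
  have hone' : n ≤ t 1 := hge 1 n le_rfl hone
  have hlin : ∀ e, n * e ≤ t e := by
    intro e
    induction e with
    | zero => rw [mul_zero]; exact Nat.zero_le _
    | succ e ih =>
      have h1 := hadd e 1
      have h2 : n * (e + 1) = n * e + n := by ring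
      omega
  have hpow : ∀ r, 1 ≤ r → n.multichoose r * n.multichoose (r - 1) ≤ t (Dn n r) := fun r hr =>
    hge _ _ (Dn_pos (by omega) hr) (exists_pow_pt (by omega) hr)
  -- small values
  have hsmall : ∀ e, e ≤ n + 1 → t e = n * e + e * (e - 1) * (e - 3) / 2 := by
    intro e he
    rcases Nat.eq_zero_or_pos e with h0 | h0
    · subst h0
      rw [ht0 0 rfl]
      simp
    · apply le_antisymm (hle e h0 _ (Tt_small h0))
      rcases Nat.lt_or_ge e 3 with h3 | h3
      · have h4 : e * (e - 1) * (e - 3) / 2 = 0 := by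
          rw [show e - 3 = 0 by omega, mul_zero, Nat.zero_div]
        rw [h4, add_zero]
        exact hlin e
      · exact hge e _ h0 (exists_small_pt h3 he)
  -- the upper bound is sharp on sparse numbers
  have hSp : ∀ e, Sp n e → Tt n e (t e) := by
    intro e h
    induction h with
    | small e h =>
      rcases Nat.eq_zero_or_pos e with h0 | h0
      · subst h0
        exact Tt_zero
      · rw [hsmall e h]
        exact Tt_small h0
    | step r e hr h he ih =>
      rw [← hD r hr]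
      rcases Nat.eq_zero_or_pos e with h0 | h0
      · subst h0
        have h1 : Tt n (Dn n r) (t (Dn n r)) := by
          intro mon' h'
          have h1 := Tt_Dn hn hr mon' h'
          have h2 := hpow r hr
          omega
        exact h1
      · intro mon' h'
        have h1 := Tt_step hn hr h0 h ih (hlin e) mon' h'
        have h2 := hpow r hr
        have h3 := hadd (Dn n r) e
        omega
  refine ⟨t, ht0 0 rfl, ht, hadd, hsmall, ?_, ?_⟩
  · intro r e hr hre he
    rw [← hD r hr, ← hT r hr]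
    apply le_antisymm
    · rcases Nat.eq_zero_or_pos e with h0 | h0
      · subst h0
        rw [ht0 0 rfl, add_zero, add_zero]
        exact hle _ (Dn_pos (by omega) hr) _ (Tt_Dn hn hr)
      · exact hle _ (by omega) _ (Tt_step hn hr h0 hre (hSp e he) (hlin e))
    · exact (Nat.add_le_add_right (hpow r hr) _).trans (hadd _ _)
  · intro r s m hr hs hm hre
    rw [← hD s hs] at hre ⊢
    rw [← hD r hr, ← hT r hr]
    have h0 : 1 ≤ Dn n s + m := le_trans (Dn_pos (by omega) hs) (Nat.le_add_right _ _)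
    have h1 := Tt_TB hn h0
    have h2 : n * (Dn n s + m) ≤ TB n (Dn n s + m) := (hlin _).trans (hle _ h0 _ h1)
    have h3 := hle _ (by omega) _ (Tt_step hn hr h0 hre h1 h2)
    rw [TB_add_of_level hn s m (by rw [show n - 1 + s = n + s - 1 by omega]; exact hm),
      TB_Dn' hn hs, hT s hs, mul_comm m] at h3
    exact h3

end Pool.Agent.Results.MP_9d305a_ag.NearSimplexNumbers
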