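import Pool.Agent.Helper61.HilbPowFam
import Pool.Agent.Helper87.HQ.Large
import Pool.Agent.Helper87.HQ.Main

/-!
# `MP_9d305a_ag`: the maximum is attained at a point of another component

All definitions (`Hilb`, its Zariski topology, `reduced`, `smoothable`, `IsCoord`, `eqns`,
`tangent`, `HasTangentDim`) are in `Pool.Agent.Helper61.HilbDef`.
-/

open MvPolynomial Module TopologicalSpace Pool.Agent.Hilb61 Pool.Agent.Helper87.HQ

namespace Pool.Agent.Results.MP_9d305a_ag.OtherComponentAllD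

universe u

/-- The maximum `t(d,n)` of the dimensions of the Zariski tangent spaces of `H_{d,n}` is attained
at a point of `H_{d,n}` which also lies on another irreducible component of `Hilb^d(𝔸^n)`. -/
def Attained (k : Type u) [Field k] (n d : ℕ) : Prop :=
  ∃ (t : ℕ) (x : Hilb k n d),
    IsGreatest {N : ℕ | ∃ y ∈ smoothable k n d, HasTangentDim y N} t ∧
    x ∈ smoothable k n d ∧ HasTangentDim x t ∧
    ∃ Z ∈ irreducibleComponents (Hilb k n d), x ∈ Z ∧ Z ≠ smoothable k n d

theorem exists_max {P : ℕ → Prop} {b : ℕ} (h1 : ∃ N, P N) (h2 : ∀ N, P N → N ≤ b) :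
    ∃ t, IsGreatest {N | P N} t := by
  classical
  obtain ⟨N, hN⟩ := h1
  let s := (Finset.range (b + 1)).filter P
  have hs : N ∈ s := by
    rw [Finset.mem_filter, Finset.mem_range]
    exact ⟨Nat.lt_succ_of_le (h2 N hN), hN⟩
  obtain ⟨t, ht1, ht2⟩ := s.exists_max_image id ⟨N, hs⟩
  rw [Finset.mem_filter, Finset.mem_range] at ht1
  refine ⟨t, ⟨ht1.2, fun M hM => ?_⟩⟩
  apply ht2 M
  rw [Finset.mem_filter, Finset.mem_range]
  exact ⟨Nat.lt_succ_of_le (h2 M hM), hM⟩

theorem exists_greatest (k : Type u) [Field k] [Infinite k] {n d : ℕ} (hn : 3 ≤ n)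
    (hd : 1 ≤ d) : ∃ t, IsGreatest {N : ℕ | ∃ y ∈ smoothable k n d, HasTangentDim y N} t := by
  obtain ⟨x₀, hx₀, N₀, hN₀, -⟩ := exists_lower k (show 2 ≤ n by omega) (le_refl 1)
    (show Dn n 1 ≤ d by
      rw [Dn, Nat.sub_add_cancel (by omega), Nat.choose_self]
      exact hd)
  exact exists_max (P := fun N => ∃ y ∈ smoothable k n d, HasTangentDim y N)
    (b := TB n d) ⟨N₀, x₀, hx₀, hN₀⟩ (by
      rintro N ⟨y, -, lam, c, hc, rfl⟩
      exact finrank_tangent_le_TB hn hd hc)

theorem cast_ne_zero {k : Type u} [Field k] {q : ℕ} (hk : ringChar k = 0 ∨ q < ringChar k) :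
    ∀ m : ℕ, 1 ≤ m → m ≤ q → (m : k) ≠ 0 := by
  intro m hm1 hmd h0
  rw [ringChar.spec] at h0
  rcases hk with hk | hk
  · rw [hk, zero_dvd_iff] at h0
    omega
  · have := Nat.le_of_dvd hm1 h0
    omega

theorem attained_of_eight_le (k : Type u) [Field k] [IsAlgClosed k] {n d r : ℕ} (hn : 4 ≤ n)
    (hd : 8 ≤ d) (hr : d < (n + r).choose n) (hk : ringChar k = 0 ∨ 2 * r < ringChar k) :
    Attained k n d := by
  have hinf : Infinite k := IsAlgClosed.instInfinite
  obtain ⟨t, ht⟩ := exists_greatest k (show 3 ≤ n by omega) (show 1 ≤ d by omega)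
  obtain ⟨x1, hx1, hN1⟩ := ht.1
  have hz : ∀ i : Fin n, i ≤ ⟨n - 1, by omega⟩ := fun i => by
    rw [Fin.le_def]
    have := i.2
    show (i : ℕ) ≤ n - 1
    omega
  obtain ⟨mon, hord, hst, hall, h3, x, hx, hxc, hle⟩ :=
    exists_min2 (cast_ne_zero hk) hr (by omega) (by omega) _ hz hx1 hN1
  have hT : HasTangentDim x (finrank k (tangent (lamD k mon) (c00 k mon))) :=
    ⟨lamD k mon, c00 k mon, hxc, rfl⟩
  have heq : finrank k (tangent (lamD k mon) (c00 k mon)) = t :=
    le_antisymm (ht.2 ⟨x, hx, hT⟩) hle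
  rw [heq] at hT
  exact ⟨t, x, ht, hx, hT, other_of_stable hn hd hord hst _ hz hall h3 hxc⟩

theorem attained_pow (k : Type u) [Field k] [IsAlgClosed k] {n r : ℕ} (hn : 3 ≤ n)
    (hr : 1 ≤ r) {mon : Fin ((n + r - 1).choose n) → (Fin n →₀ ℕ)} (hm : IsEnum r mon)
    (h : ∃ Z ∈ irreducibleComponents (Hilb k n ((n + r - 1).choose n)),
      xpow (k := k) hm hr ∈ Z ∧ Z ≠ smoothable k n ((n + r - 1).choose n)) :
    Attained k n ((n + r - 1).choose n) := by
  have hinf : Infinite k := IsAlgClosed.instInfinite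
  have i0 : Fin n := ⟨0, by omega⟩
  have hD : Dn n r = (n + r - 1).choose n := by
    rw [Dn]
    congr 1
    omega
  have e1 : n.multichoose r = (n + r - 1).choose (n - 1) := by
    rw [Nat.multichoose_eq, ← Nat.choose_symm_of_eq_add (show n + r - 1 = (n - 1) + r by omega)]
  have e2 : n.multichoose (r - 1) = (n + r - 2).choose (n - 1) := by
    rw [Nat.multichoose_eq, show n + (r - 1) - 1 = n + r - 2 by omega,
      ← Nat.choose_symm_of_eq_add (show n + r - 2 = (n - 1) + (r - 1) by omega)]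
  have hT : TB n ((n + r - 1).choose n) =
      (n + r - 1).choose (n - 1) * (n + r - 2).choose (n - 1) := by
    rw [← hD, TB_Dn hn]
  have hfin : finrank k (tangent (lamD k mon) (c00 k mon)) =
      (n + r - 1).choose (n - 1) * (n + r - 2).choose (n - 1) := by
    rw [← e1, ← e2]
    exact le_antisymm (finrank_pow_le hm hr (by omega)) (le_finrank_pow hm hr i0)
  have hx₀ : HasTangentDim (xpow (k := k) hm hr)
      ((n + r - 1).choose (n - 1) * (n + r - 2).choose (n - 1)) :=
    ⟨lamD k mon, c00 k mon, isCoord_pow hm hr, hfin⟩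
  have hs₀ := xpow_smoothable (k := k) hm hr i0
  refine ⟨_, _, ⟨⟨_, hs₀, hx₀⟩, ?_⟩, hs₀, hx₀, h⟩
  rintro N ⟨y, -, lam, c, hc, rfl⟩
  rw [← hT]
  exact finrank_tangent_le_TB hn (Nat.choose_pos (by omega)) hc

theorem mem_Dlt_enum {n d r : ℕ} {mon : Fin d → (Fin n →₀ ℕ)} (hm : IsEnum r mon)
    {b : Fin n →₀ ℕ} : b ∈ Dlt mon ↔ b.degree < r := by
  rw [mem_Dlt]
  constructor
  · rintro ⟨s, rfl⟩
    exact hm.lt s
  · intro h
    exact hm.ex b h

theorem pow_other_four (k : Type u) [Field k] [IsAlgClosed k] {n r d : ℕ} (hn : 4 ≤ n)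
    (hr : 1 ≤ r) (hd : 8 ≤ d) {mon : Fin d → (Fin n →₀ ℕ)} (hm : IsEnum r mon) :
    ∃ Z ∈ irreducibleComponents (Hilb k n d), xpow (k := k) hm hr ∈ Z ∧
      Z ≠ smoothable k n d := by
  have hinf : Infinite k := IsAlgClosed.instInfinite
  have hz : ∀ i : Fin n, i ≤ ⟨n - 1, by omega⟩ := fun i => by
    rw [Fin.le_def]
    have := i.2
    show (i : ℕ) ≤ n - 1
    omega
  refine other_of_stable hn hd hm.isOrd ?_ _ hz ?_ ?_ (isCoord_pow hm hr)
  · intro u i hu
    rw [mem_Dlt_enum hm, map_add, Finsupp.degree_single] at hu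
    refine ⟨by rw [mem_Dlt_enum hm]; omega, fun j _ => ?_⟩
    rw [mem_Dlt_enum hm, map_add, Finsupp.degree_single]
    exact hu
  · rintro ⟨b, hb, hb2⟩ i
    rw [mem_Dlt_enum hm] at hb ⊢
    rw [Finsupp.degree_single]
    omega
  · intro h3
    rw [mem_Dlt_enum hm, Finsupp.degree_single] at h3
    have hinj : Function.Injective (fun i : Fin n => (Finsupp.single i 2 : Fin n →₀ ℕ)) := by
      intro i j hij
      exact (Finsupp.single_left_inj (by norm_num)).mp hij
    have hsub : Finset.univ.image (fun i : Fin n => (Finsupp.single i 2 : Fin n →₀ ℕ)) ⊆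
        (Dlt mon).filter (fun b => b.degree = 2) := by
      intro b hb
      rw [Finset.mem_image] at hb
      obtain ⟨i, -, rfl⟩ := hb
      rw [Finset.mem_filter, mem_Dlt_enum hm, Finsupp.degree_single]
      exact ⟨by omega, rfl⟩
    have hc := Finset.card_le_card hsub
    rw [Finset.card_image_of_injective _ hinj, Finset.card_univ, Fintype.card_fin] at hc
    omega

/-- (1) For all `n ≥ 4`, `d ≥ 8` and `r` with `d < C(n+r,n)`, and all algebraically closed fields
`k` of characteristic `0` or `> 2r`, the maximum `t(d,n)` is attained at a point which also lies on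
another component. (2) There is `d₀` such that this holds for `n = 3` and all `d ≥ d₀` and `r` with
`d < C(3+r,3)`, in characteristic `0` or `> 2r`. (3) For all algebraically closed fields `k` (of any
characteristic) this also holds for all `d = C(n+r-1,n)` with `n ≥ 4` and `d ≥ 8`, or `n = 3` and
`r ≥ 8`. -/
theorem result :
    (∀ n d r : ℕ, 4 ≤ n → 8 ≤ d → d < (n + r).choose n →
      ∀ (k : Type u) [Field k] [IsAlgClosed k],
      (ringChar k = 0 ∨ 2 * r < ringChar k) → Attained k n d) ∧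
    (∃ d₀ : ℕ, ∀ d r : ℕ, d₀ ≤ d → d < (3 + r).choose 3 →
      ∀ (k : Type u) [Field k] [IsAlgClosed k],
      (ringChar k = 0 ∨ 2 * r < ringChar k) → Attained k 3 d) ∧
    (∀ (k : Type u) [Field k] [IsAlgClosed k] (n r : ℕ),
      (4 ≤ n ∧ 8 ≤ (n + r - 1).choose n) ∨ (n = 3 ∧ 8 ≤ r) →
      Attained k n ((n + r - 1).choose n)) := by
  refine ⟨fun n d r hn hd hr k _ _ hk => attained_of_eight_le k hn hd hr hk, ?_, ?_⟩
  · obtain ⟨d₀, hd₀⟩ := exists_other_component2.{u} 3 le_rfl
    refine ⟨max d₀ 1, fun d r hd hr k _ _ hk => ?_⟩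
    have hinf : Infinite k := IsAlgClosed.instInfinite
    have hd1 : 1 ≤ d := le_trans (le_max_right _ _) hd
    obtain ⟨t, ht⟩ := exists_greatest k (le_refl 3) hd1
    obtain ⟨x, hx, hxt, Z, hZ, hxZ, hZs⟩ :=
      hd₀ d (le_trans (le_max_left _ _) hd) r hr k (cast_ne_zero hk) t ht
    exact ⟨t, x, ht, hx, hxt, Z, hZ, hxZ, fun h => hZs h.le⟩
  · intro k _ _ n r h
    have hinf : Infinite k := IsAlgClosed.instInfinite
    have hn : 3 ≤ n := by omega
    have hr : 1 ≤ r := by
      rcases h with h | h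
      · by_contra hr
        have hr0 : r = 0 := by omega
        rw [hr0, Nat.choose_eq_zero_of_lt (by omega)] at h
        omega
      · omega
    obtain ⟨mon, hm⟩ := exists_enum n r hr
    refine attained_pow k hn hr hm ?_
    rcases h with ⟨h4, h8⟩ | ⟨h3, h8⟩
    · exact pow_other_four k h4 hr h8 hm
    · have hD : Dn n r = (n + r - 1).choose n := by
        rw [Dn]
        congr 1
        omega
      obtain ⟨Z, hZ, hxZ, hZs⟩ := pow_other_component k (Or.inl ⟨h3, h8⟩) hm hr hD.symm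
      exact ⟨Z, hZ, hxZ, fun h => hZs h.le⟩

end Pool.Agent.Results.MP_9d305a_ag.OtherComponentAllD
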